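import Pool.Agent.Helper49.HRG.Final

/-!
# Connectivity of hyperbolic random graphs at beta = 1

The random graph `G(N; ζ, α, β)` is realised on the probability space of `N` independent random
points of the disc and one independent uniform variable for every unordered pair of vertices; the
pair `u ≠ v` is joined when its uniform variable is at most the connection probability
`1 / (exp (β (ζ / 2) (d(u, v) - R)) + 1)`.

Main result: for `β = 1` the graph is connected with probability tending to one when
`ζ / α ≥ 2 - 4 / π`, and disconnected with probability tending to one when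
`ζ / α < 2 - 4 / π`.
-/

open MeasureTheory Filter Topology

namespace Pool.Agent.Results.MP_bbc1a5_pr.ConnectivityThreshold

noncomputable section

/-- The radius `R = 2 log N / ζ` of the disc. -/
def discRadius (ζ : ℝ) (N : ℕ) : ℝ := 2 * Real.log N / ζ

/-- Hyperbolic distance (curvature `-ζ ^ 2`) of two points given by native polar coordinates
`(r, θ)`. It is the number `d ≥ 0` with
`cosh (ζ d) = cosh (ζ r_u) cosh (ζ r_v) - sinh (ζ r_u) sinh (ζ r_v) cos (θ_u - θ_v)`. -/
def hypDist (ζ : ℝ) (u v : ℝ × ℝ) : ℝ :=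
  Real.arcosh (Real.cosh (ζ * u.1) * Real.cosh (ζ * v.1) -
    Real.sinh (ζ * u.1) * Real.sinh (ζ * v.1) * Real.cos (u.2 - v.2)) / ζ

/-- The connection probability `1 / (exp (β (ζ / 2) (d(u, v) - R)) + 1)`. -/
def edgeProb (ζ β : ℝ) (N : ℕ) (u v : ℝ × ℝ) : ℝ :=
  1 / (Real.exp (β * (ζ / 2) * (hypDist ζ u v - discRadius ζ N)) + 1)

/-- Law of the radius: density `α sinh (α r) / (cosh (α R) - 1)` on `[0, R]`. -/
def radiusLaw (ζ α : ℝ) (N : ℕ) : Measure ℝ :=
  (volume.restrict (Set.Icc 0 (discRadius ζ N))).withDensity fun r =>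
    ENNReal.ofReal (α * Real.sinh (α * r) / (Real.cosh (α * discRadius ζ N) - 1))

/-- Law of the angle: uniform on `(0, 2π]`. -/
def angleLaw : Measure ℝ :=
  (volume.restrict (Set.Ioc 0 (2 * Real.pi))).withDensity fun _ =>
    ENNReal.ofReal (1 / (2 * Real.pi))

/-- Law of one random point `(r, θ)`: radius and angle are independent. -/
def pointLaw (ζ α : ℝ) (N : ℕ) : Measure (ℝ × ℝ) := (radiusLaw ζ α N).prod angleLaw

/-- The uniform law on the unit interval. -/
def unifLaw : Measure ℝ := volume.restrict (Set.Icc 0 1)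

/-- The sample space: positions of the `N` points, and a real number for each unordered pair. -/
abbrev Sample (N : ℕ) : Type := (Fin N → ℝ × ℝ) × (Sym2 (Fin N) → ℝ)

/-- The probability law on the sample space: `N` independent points with law `pointLaw`, and,
independently of them, independent uniform variables indexed by the unordered pairs. -/
def sampleLaw (ζ α : ℝ) (N : ℕ) : Measure (Sample N) :=
  (Measure.pi fun _ => pointLaw ζ α N).prod (Measure.pi fun _ => unifLaw)

/-- Symmetry of the connection probability. -/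
lemma edgeProb_symm (ζ β : ℝ) (N : ℕ) (u v : ℝ × ℝ) :
    edgeProb ζ β N u v = edgeProb ζ β N v u :=
  Helper49.HRG.edgeProb_symm ζ β N u v

/-- The random graph: distinct `u`, `v` are joined when the uniform variable of the pair is at most
the connection probability of the two points. -/
def hypGraph (ζ β : ℝ) (N : ℕ) (ω : Sample N) : SimpleGraph (Fin N) where
  Adj u v := u ≠ v ∧ ω.2 s(u, v) ≤ edgeProb ζ β N (ω.1 u) (ω.1 v)
  symm := ⟨fun u v h => ⟨h.1.symm, by
    have h2 := h.2
    rw [Sym2.eq_swap, edgeProb_symm]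
    exact h2⟩⟩
  loopless := ⟨fun _ h => h.1 rfl⟩

/-- Sanity check: the sample law is a probability measure. -/
lemma sampleLaw_prob {ζ α : ℝ} (hζ : 0 < ζ) (hα : 0 < α) {N : ℕ} (hN : 2 ≤ N) :
    IsProbabilityMeasure (sampleLaw ζ α N) := by
  have h := Helper49.HRG.point_prob hζ hα hN
  exact inferInstanceAs (IsProbabilityMeasure (Helper49.HRG.muN ζ α N))

/-- Sanity check: connectedness is a measurable event. -/
lemma measurable_connected (ζ : ℝ) (N : ℕ) :
    MeasurableSet {ω : Sample N | (hypGraph ζ 1 N ω).Connected} :=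
  Helper49.HRG.measurable_graph_event (ζ := ζ) (N := N) (fun G => G.Connected)

/-- Sanity check: given the positions, the pairs are joined independently, each with its
connection probability. -/
lemma edges_independent (ζ β : ℝ) (N : ℕ) (x : Fin N → ℝ × ℝ) (P Q : Finset (Sym2 (Fin N)))
    (hPQ : Disjoint P Q) :
    (Measure.pi fun _ : Sym2 (Fin N) => unifLaw).real {U | (∀ e ∈ P, U e ≤
        Sym2.lift ⟨fun u v => edgeProb ζ β N (x u) (x v), fun _ _ => edgeProb_symm ζ β N _ _⟩ e) ∧
      (∀ e ∈ Q, Sym2.lift ⟨fun u v => edgeProb ζ β N (x u) (x v),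
        fun _ _ => edgeProb_symm ζ β N _ _⟩ e < U e)} =
      (∏ e ∈ P, Sym2.lift ⟨fun u v => edgeProb ζ β N (x u) (x v),
        fun _ _ => edgeProb_symm ζ β N _ _⟩ e) *
      ∏ e ∈ Q, (1 - Sym2.lift ⟨fun u v => edgeProb ζ β N (x u) (x v),
        fun _ _ => edgeProb_symm ζ β N _ _⟩ e) :=
  Helper49.HRG.edge_prob _ (fun e => Helper49.HRG.pe_nonneg (Helper49.HRG.conn ζ β N) x e)
    (fun e => Helper49.HRG.pe_le_one (Helper49.HRG.conn ζ β N) x e) P Q hPQ

/-- **Connectivity threshold at `β = 1`.** Let `0 < ζ < 2`, `α > 0` and `ζ / α < 2`. If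
`ζ / α ≥ 2 - 4 / π` then `G(N; ζ, α, 1)` is connected with probability tending to one; if
`ζ / α < 2 - 4 / π` then the probability of connectedness tends to zero. -/
theorem result (ζ α : ℝ) (hζ : 0 < ζ) (hζ2 : ζ < 2) (hα : 0 < α) (hratio : ζ / α < 2) :
    (2 - 4 / Real.pi ≤ ζ / α →
      Tendsto (fun N : ℕ => (sampleLaw ζ α N).real {ω | (hypGraph ζ 1 N ω).Connected})
        atTop (𝓝 1)) ∧
    (ζ / α < 2 - 4 / Real.pi →
      Tendsto (fun N : ℕ => (sampleLaw ζ α N).real {ω | (hypGraph ζ 1 N ω).Connected})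
        atTop (𝓝 0)) := by
  have hpi := Real.pi_pos
  have h : ζ / 2 < α := by
    rw [div_lt_iff₀ hα] at hratio
    linarith
  have hd : 0 < α - ζ / 2 := by linarith
  have hcc : Helper49.HRG.cc ζ α = 2 / (Real.pi * (1 - ζ / α / 2)) := by
    unfold Helper49.HRG.cc Helper49.HRG.kap
    have e : 1 - ζ / α / 2 = (α - ζ / 2) / α := by field_simp
    rw [e]
    field_simp
  have hs : 0 < 1 - ζ / α / 2 := by linarith
  constructor
  · intro h1
    refine Helper49.HRG.connected_tendsto hζ hα h ?_
    rw [hcc, one_le_div (by positivity)]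
    have h2 : 1 - ζ / α / 2 ≤ 2 / Real.pi := by
      have : 4 / Real.pi = 2 * (2 / Real.pi) := by ring
      linarith
    rw [le_div_iff₀ hpi] at h2
    linarith
  · intro h1
    refine Helper49.HRG.disconnected_tendsto hζ hα h ?_
    rw [hcc, div_lt_one (by positivity)]
    have h2 : 2 / Real.pi < 1 - ζ / α / 2 := by
      have : 4 / Real.pi = 2 * (2 / Real.pi) := by ring
      linarith
    rw [div_lt_iff₀ hpi] at h2
    linarith

end

end Pool.Agent.Results.MP_bbc1a5_pr.ConnectivityThreshold
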